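import Pool.Agent.Helper76.C5.St.C1

/-! C5G C2 (MP_5d2531_al, degree 5 in all characteristics; paper /team-store/C5_full_helper76_v2.md). Cayley-Hamilton (Matrix.aeval_self_charpoly) and C1. -/

namespace Pool.Agent.Helper76.C5

open Matrix Finset Pool.Agent.Helper58.CY

theorem C2 {R : Type*} [CommRing R] (M : M5 R) (h0 : ∀ i, M i i = 0) (h2 : E2 M = 0) (h3 : E3 M = 0)
    (h4 : Matrix.trace (Matrix.adjugate M) = 0) : M ^ 5 = Matrix.det M • (1 : M5 R) := by
  have h := Matrix.aeval_self_charpoly M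
  rw [C1 M h0, h2, h3, h4] at h
  simp only [map_zero, zero_mul, sub_zero, add_zero, map_sub, map_pow, Polynomial.aeval_X,
    Polynomial.aeval_C] at h
  rw [sub_eq_zero] at h
  rw [h, Algebra.algebraMap_eq_smul_one]

end Pool.Agent.Helper76.C5
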