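import Pool.Agent.Helper76.C5.Defs

/-! C5G D1 (MP_5d2531_al, degree 5 in all characteristics; paper /team-store/C5_full_helper76_v2.md). Identity: each product XX_ij XX_ji = -m_ij^2/(r_i r_j) (h_ij h_ji = 1), m_ij^2/(r_i r_j) = r_i t_j - 2 s_i s_j + r_j t_i with t_i = s_i^2/r_i; the sum over i<j is (sum r)(sum t) - (sum s)^2 = 0. -/

namespace Pool.Agent.Helper76.C5

open Matrix Finset Pool.Agent.Helper58.CY

lemma D1_key {Ω : Type*} [Field Ω] (h : M5 Ω) (hs : ∀ i j, h i j * h j i = 1) (r s : Fin 5 → Ω)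
    (hr : ∀ i, r i ≠ 0) (i j : Fin 5) :
    XX h r s i j * XX h r s j i
      = -(r i * (s j ^ 2 * (r j)⁻¹) - 2 * s i * s j + r j * (s i ^ 2 * (r i)⁻¹)) := by
  have hi := hr i
  have hj := hr j
  have e := hs i j
  have e1 : XX h r s i j * XX h r s j i
      = (r i)⁻¹ * (r j)⁻¹ * (r i * s j - r j * s i) * (r j * s i - r i * s j) * (h i j * h j i) := by
    simp only [XX, Matrix.of_apply]
    ring
  rw [e1, e]
  field_simp
  ring

theorem D1 {Ω : Type*} [Field Ω] (h : M5 Ω) (hs : ∀ i j, h i j * h j i = 1) (r s : Fin 5 → Ω)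
    (hr : ∀ i, r i ≠ 0) (sr : ∑ i, r i = 0) (ss : ∑ i, s i = 0) : E2 (XX h r s) = 0 := by
  have c : ∀ i, r i * (s i ^ 2 * (r i)⁻¹) = s i ^ 2 := by
    intro i
    have hi := hr i
    field_simp
  have c0 := c 0
  have c1 := c 1
  have c2 := c 2
  have c3 := c 3
  have c4 := c 4
  rw [Fin.sum_univ_five] at sr ss
  simp only [E2, D1_key h hs r s hr]
  linear_combination (-(s 0 ^ 2 * (r 0)⁻¹ + s 1 ^ 2 * (r 1)⁻¹ + s 2 ^ 2 * (r 2)⁻¹ + s 3 ^ 2 * (r 3)⁻¹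
    + s 4 ^ 2 * (r 4)⁻¹)) * sr + (s 0 + s 1 + s 2 + s 3 + s 4) * ss + c0 + c1 + c2 + c3 + c4

end Pool.Agent.Helper76.C5
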