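import Pool.Agent.Helper76.C5.Defs

/-! C5G D2 (MP_5d2531_al, degree 5 in all characteristics; paper /team-store/C5_full_helper76_v2.md). Identity: cyc3 (XX) i j k = (m_ij m_jk m_ki / (r_i r_j r_k)) (c_ijk - c_ikj), c_ijk = h_ij h_jk h_ki, m_ij = r_i s_j - r_j s_i = -m_ji, and m_ij m_jk m_ki/(r_i r_j r_k) = (sign) det of rows (r, s, s^2/r) at i,j,k; om h r s (s^2/r) = sum over i<j<k of (c_ijk - c_ikj) det(...) (the coefficient c_ijk - c_ikj is alternating in i,j,k, so it vanishes when two indices agree). So E3 (XX h r s) = +-om h r s (s^2/r) = 0. Suggestion: prove E3 (XX) = om or = -om by expanding (Fin.sum_univ_five), field_simp, ring, or first a lemma om = sum of ten terms. -/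

namespace Pool.Agent.Helper76.C5

open Matrix Finset Pool.Agent.Helper58.CY

/-- the alternating coefficient -/
private def d2C {Ω : Type*} [CommRing Ω] (h : M5 Ω) (i j k : Fin 5) : Ω :=
  h i j * h j k * h k i - h i k * h k j * h j i

/-- the determinant of three rows -/
private def d2det {Ω : Type*} [CommRing Ω] (u v w : Fin 5 → Ω) (i j k : Fin 5) : Ω :=
  u i * v j * w k - u i * v k * w j - u j * v i * w k + u j * v k * w i + u k * v i * w j
    - u k * v j * w i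

private lemma d2_om {Ω : Type*} [CommRing Ω] (h : M5 Ω) (u v w : Fin 5 → Ω) :
    om h u v w = d2C h 0 1 2 * d2det u v w 0 1 2 + d2C h 0 1 3 * d2det u v w 0 1 3 +
      d2C h 0 1 4 * d2det u v w 0 1 4 + d2C h 0 2 3 * d2det u v w 0 2 3 +
      d2C h 0 2 4 * d2det u v w 0 2 4 + d2C h 0 3 4 * d2det u v w 0 3 4 +
      d2C h 1 2 3 * d2det u v w 1 2 3 + d2C h 1 2 4 * d2det u v w 1 2 4 +
      d2C h 1 3 4 * d2det u v w 1 3 4 + d2C h 2 3 4 * d2det u v w 2 3 4 := by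
  have e0 : om h u v w = ∑ i, ∑ j, ∑ k, d2C h i j k * (u i * v j * w k) := rfl
  have a1 : ∀ i k, d2C h i i k = 0 := fun i k => by unfold d2C; ring
  have a2 : ∀ i k, d2C h i k i = 0 := fun i k => by unfold d2C; ring
  have a3 : ∀ i k, d2C h k i i = 0 := fun i k => by unfold d2C; ring
  have b1 : ∀ i j k, d2C h j i k = - d2C h i j k := fun i j k => by unfold d2C; ring
  have b2 : ∀ i j k, d2C h i k j = - d2C h i j k := fun i j k => by unfold d2C; ring
  have b3 : ∀ i j k, d2C h j k i = d2C h i j k := fun i j k => by unfold d2C; ring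
  have b4 : ∀ i j k, d2C h k i j = d2C h i j k := fun i j k => by unfold d2C; ring
  have b5 : ∀ i j k, d2C h k j i = - d2C h i j k := fun i j k => by unfold d2C; ring
  rw [e0]
  simp only [Fin.sum_univ_five, a1, a2, a3]
  rw [b2 0 1 2, b1 0 1 2, b3 0 1 2, b4 0 1 2, b5 0 1 2,
    b2 0 1 3, b1 0 1 3, b3 0 1 3, b4 0 1 3, b5 0 1 3,
    b2 0 1 4, b1 0 1 4, b3 0 1 4, b4 0 1 4, b5 0 1 4,
    b2 0 2 3, b1 0 2 3, b3 0 2 3, b4 0 2 3, b5 0 2 3,
    b2 0 2 4, b1 0 2 4, b3 0 2 4, b4 0 2 4, b5 0 2 4,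
    b2 0 3 4, b1 0 3 4, b3 0 3 4, b4 0 3 4, b5 0 3 4,
    b2 1 2 3, b1 1 2 3, b3 1 2 3, b4 1 2 3, b5 1 2 3,
    b2 1 2 4, b1 1 2 4, b3 1 2 4, b4 1 2 4, b5 1 2 4,
    b2 1 3 4, b1 1 3 4, b3 1 3 4, b4 1 3 4, b5 1 3 4,
    b2 2 3 4, b1 2 3 4, b3 2 3 4, b4 2 3 4, b5 2 3 4]
  simp only [d2det]
  ring

private lemma d2_cyc {Ω : Type*} [Field Ω] (h : M5 Ω) (r s : Fin 5 → Ω)
    (hr : ∀ i, r i ≠ 0) (i j k : Fin 5) :
    cyc3 (XX h r s) i j k = - (d2C h i j k * d2det r s (fun i => s i ^ 2 * (r i)⁻¹) i j k) := by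
  have hi := hr i
  have hj := hr j
  have hk := hr k
  simp only [cyc3, XX, Matrix.of_apply, d2C, d2det]
  field_simp
  ring

theorem D2 {Ω : Type*} [Field Ω] (h : M5 Ω) (r s : Fin 5 → Ω)
    (hr : ∀ i, r i ≠ 0) (ho : om h r s (fun i => s i ^ 2 * (r i)⁻¹) = 0) : E3 (XX h r s) = 0 := by
  have e : E3 (XX h r s) = - om h r s (fun i => s i ^ 2 * (r i)⁻¹) := by
    unfold E3
    rw [d2_om]
    simp only [d2_cyc h r s hr]
    ring
  rw [e, ho, neg_zero]

end Pool.Agent.Helper76.C5
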