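import Pool.Agent.Helper76.C5.St.H1

/-! C5G H2 (MP_5d2531_al, degree 5 in all characteristics; paper /team-store/C5_full_helper76_v2.md). For d, d1 ∈ D the array d_ij d1_ji is in Arr D: with H1, d_ij d1_ji = sum_l ρ_l(j) w_l(i), w_l(i) = (d θ^l d1)_ii, diagonal (w_l) ∈ D by A5; arrays v_i (resp. v_j) with diagonal v ∈ D are in Arr D because had is left (resp. right) multiplication by diagonal v. -/

namespace Pool.Agent.Helper76.C5

open Matrix Finset Pool.Agent.Helper58.CY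

variable {F : Type*} {Ω : Type*} [Field F] [Field Ω] [Algebra F Ω]

theorem row_mem (D : Subalgebra F (M5 Ω)) (v : Fin 5 → Ω) (hv : Matrix.diagonal v ∈ D) :
    (fun i _ => v i : Fin 5 → Fin 5 → Ω) ∈ Arr D := by
  intro d hd
  have h : had (fun i _ => v i) d = Matrix.diagonal v * d := by
    ext i j
    rw [Matrix.diagonal_mul]
    rfl
  rw [h]
  exact D.mul_mem hv hd

theorem col_mem (D : Subalgebra F (M5 Ω)) (v : Fin 5 → Ω) (hv : Matrix.diagonal v ∈ D) :
    (fun _ j => v j : Fin 5 → Fin 5 → Ω) ∈ Arr D := by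
  intro d hd
  have h : had (fun _ j => v j) d = d * Matrix.diagonal v := by
    ext i j
    rw [Matrix.mul_diagonal, mul_comm]
    rfl
  rw [h]
  exact D.mul_mem hd hv

theorem H2 (D : Subalgebra F (M5 Ω)) (hD : IsForm D) (a : Fin 5 → Ω) (ha : Function.Injective a)
    (hθ : Matrix.diagonal a ∈ D) (d d1 : M5 Ω) (hd : d ∈ D) (hd1 : d1 ∈ D) :
    (fun i j => d i j * d1 j i : Fin 5 → Fin 5 → Ω) ∈ Arr D := by
  obtain ⟨ρ, hρ, hdual⟩ := H1 D hD a ha hθ
  have hw : ∀ l : Fin 5, (fun i _ => (d * Matrix.diagonal a ^ (l : ℕ) * d1) i i :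
      Fin 5 → Fin 5 → Ω) ∈ Arr D := by
    intro l
    refine row_mem D _ (A5 D hD a ha hθ _ ?_)
    exact D.mul_mem (D.mul_mem hd (D.pow_mem hθ _)) hd1
  have hsum : (∑ l : Fin 5, (fun _ j => ρ l j : Fin 5 → Fin 5 → Ω) *
      (fun i _ => (d * Matrix.diagonal a ^ (l : ℕ) * d1) i i : Fin 5 → Fin 5 → Ω)) ∈ Arr D :=
    (Arr D).sum_mem fun l _ => (Arr D).mul_mem (col_mem D (ρ l) (hρ l)) (hw l)
  have he : (fun i j => d i j * d1 j i : Fin 5 → Fin 5 → Ω) =
      ∑ l : Fin 5, (fun _ j => ρ l j : Fin 5 → Fin 5 → Ω) *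
        (fun i _ => (d * Matrix.diagonal a ^ (l : ℕ) * d1) i i : Fin 5 → Fin 5 → Ω) := by
    funext i j
    rw [Finset.sum_apply, Finset.sum_apply]
    have h1 : ∀ l : Fin 5, ((fun _ j => ρ l j : Fin 5 → Fin 5 → Ω) *
        (fun i _ => (d * Matrix.diagonal a ^ (l : ℕ) * d1) i i : Fin 5 → Fin 5 → Ω)) i j =
        ∑ k : Fin 5, d i k * d1 k i * (ρ l j * a k ^ (l : ℕ)) := by
      intro l
      change ρ l j * (d * Matrix.diagonal a ^ (l : ℕ) * d1) i i = _
      rw [Matrix.diagonal_pow, Matrix.mul_apply, Finset.mul_sum]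
      refine Finset.sum_congr rfl fun k _ => ?_
      rw [Matrix.mul_diagonal, Pi.pow_apply]
      ring
    rw [Finset.sum_congr rfl fun l _ => h1 l, Finset.sum_comm]
    have h2 : ∀ k : Fin 5, ∑ l : Fin 5, d i k * d1 k i * (ρ l j * a k ^ (l : ℕ)) =
        if j = k then d i k * d1 k i else 0 := by
      intro k
      rw [← Finset.mul_sum, hdual j k]
      split_ifs <;> ring
    rw [Finset.sum_congr rfl fun k _ => h2 k, Finset.sum_ite_eq]
    simp
  rw [he]
  exact hsum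

end Pool.Agent.Helper76.C5
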