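import Pool.Agent.Helper76.C5.Defs
import Pool.Agent.Helper58.CY.A5

/-! C5G H3 (MP_5d2531_al, degree 5 in all characteristics; paper /team-store/C5_full_helper76_v2.md). Inverse: had f : D → D is F-linear and injective (f nowhere zero), D is finite dimensional over F (25 generators, see the private a5_finite in Helper58/CY/A5.lean, copy it), so surjective: d = had f x, x ∈ D, and x = had f^-1 d. -/

namespace Pool.Agent.Helper76.C5

open Matrix Finset Pool.Agent.Helper58.CY

variable {F : Type*} {Ω : Type*} [Field F] [Field Ω] [Algebra F Ω]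

private theorem h3_finite (D : Subalgebra F (M5 Ω)) (hD : IsForm D) : Module.Finite F D := by
  obtain ⟨b, hb, _, hspan⟩ := hD
  let φ : (Fin 25 → F) →ₗ[F] D := Fintype.linearCombination F (fun i => (⟨b i, hb i⟩ : D))
  apply Module.Finite.of_surjective φ
  rintro ⟨d, hd⟩
  obtain ⟨c, hc⟩ := hspan d hd
  refine ⟨c, ?_⟩
  apply Subtype.ext
  change ((φ c : D) : M5 Ω) = d
  rw [hc]
  have h1 : φ c = ∑ i, c i • (⟨b i, hb i⟩ : D) := Fintype.linearCombination_apply F _ c
  rw [h1]
  have h2 : D.val (∑ i, c i • (⟨b i, hb i⟩ : D)) =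
      ∑ i, D.val (c i • (⟨b i, hb i⟩ : D)) := map_sum D.val _ _
  exact h2

theorem H3 (D : Subalgebra F (M5 Ω)) (hD : IsForm D) (f : Fin 5 → Fin 5 → Ω) (hf : f ∈ Arr D)
    (h0 : ∀ i j, f i j ≠ 0) : (fun i j => (f i j)⁻¹ : Fin 5 → Fin 5 → Ω) ∈ Arr D := by
  have hfin : Module.Finite F D := h3_finite D hD
  let φ : D →ₗ[F] D :=
    { toFun := fun x => ⟨had f (x : M5 Ω), hf _ x.2⟩
      map_add' := by
        intro x y
        apply Subtype.ext
        ext i j
        change f i j * ((x : M5 Ω) i j + (y : M5 Ω) i j) =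
          f i j * (x : M5 Ω) i j + f i j * (y : M5 Ω) i j
        ring
      map_smul' := by
        intro c x
        apply Subtype.ext
        ext i j
        change f i j * (c • (x : M5 Ω) i j) = c • (f i j * (x : M5 Ω) i j)
        rw [mul_smul_comm] }
  have hinj : Function.Injective φ := by
    intro x y hxy
    apply Subtype.ext
    ext i j
    have h1 : f i j * (x : M5 Ω) i j = f i j * (y : M5 Ω) i j := by
      have h2 : ((φ x : D) : M5 Ω) i j = ((φ y : D) : M5 Ω) i j := by rw [hxy]
      exact h2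
    exact mul_left_cancel₀ (h0 i j) h1
  have hsurj : Function.Surjective φ := LinearMap.surjective_of_injective hinj
  intro d hd
  obtain ⟨x, hx⟩ := hsurj ⟨d, hd⟩
  have h1 : had (fun i j => (f i j)⁻¹ : Fin 5 → Fin 5 → Ω) d = (x : M5 Ω) := by
    have h2 : d = ((φ x : D) : M5 Ω) := by rw [hx]
    ext i j
    rw [h2]
    change (f i j)⁻¹ * (f i j * (x : M5 Ω) i j) = (x : M5 Ω) i j
    rw [inv_mul_cancel_left₀ (h0 i j)]
  rw [h1]
  exact x.2

end Pool.Agent.Helper76.C5
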