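import Pool.Agent.Helper76.C5.St.H2
import Pool.Agent.Helper76.C5.St.H3

/-! C5G H4 (MP_5d2531_al, degree 5 in all characteristics; paper /team-store/C5_full_helper76_v2.md). n_ij = prod_k (g_ik g_kj) / g_ij^5. Let f_s(i,j) = (g θ^s g)_ij g_ji * (g_ij g_ji)^-1 = sum_k a_k^s (g_ik g_kj/g_ij): in Arr D by H2 (d = g θ^s g, d1 = g) and H3. For fixed i,j: det over (l,m) of f_(l+m)(i,j) = det (V^T diag(x_k) V) = (det V)^2 prod_k x_k, x_k = g_ik g_kj/g_ij, V = vandermonde a. The array (i,j) ↦ det_(l,m) f_(l+m)(i,j) is in Arr D (det_apply: sums and products), and (det V)^2 = discM θ = algebraMap of a nonzero c ∈ F (A7 applied to the entries tr θ^(l+m), or: take the inverse array by H3, constant arrays). Conclude n = det array * (det V)^-2. -/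

namespace Pool.Agent.Helper76.C5

open Matrix Finset Pool.Agent.Helper58.CY

variable {F : Type*} {Ω : Type*} [Field F] [Field Ω] [Algebra F Ω]

private lemma h4_entry (a : Fin 5 → Ω) (g : M5 Ω) (s : ℕ) (i j : Fin 5) :
    (g * Matrix.diagonal a ^ s * g) i j = ∑ k, a k ^ s * (g i k * g k j) := by
  rw [Matrix.diagonal_pow, Matrix.mul_apply]
  refine Finset.sum_congr rfl fun k _ => ?_
  rw [Matrix.mul_diagonal]
  simp only [Pi.pow_apply]
  ring

private lemma h4_f (D : Subalgebra F (M5 Ω)) (hD : IsForm D) (a : Fin 5 → Ω)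
    (ha : Function.Injective a)
    (hθ : Matrix.diagonal a ∈ D) (g : M5 Ω) (hg : g ∈ D) (h0 : ∀ i j, g i j ≠ 0) (s : ℕ) :
    (fun i j => ∑ k, a k ^ s * (g i k * g k j * (g i j)⁻¹) : Fin 5 → Fin 5 → Ω) ∈ Arr D := by
  have hd : g * Matrix.diagonal a ^ s * g ∈ D := D.mul_mem (D.mul_mem hg (D.pow_mem hθ s)) hg
  have h1 := H2 D hD a ha hθ (g * Matrix.diagonal a ^ s * g) g hd hg
  have h2 := H2 D hD a ha hθ g g hg hg
  have h3 := H3 D hD _ h2 (fun i j => mul_ne_zero (h0 i j) (h0 j i))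
  have h4 := (Arr D).mul_mem h1 h3
  have h5 : ((fun i j => (g * Matrix.diagonal a ^ s * g) i j * g j i : Fin 5 → Fin 5 → Ω) *
      (fun i j => (g i j * g j i)⁻¹ : Fin 5 → Fin 5 → Ω)) =
      (fun i j => ∑ k, a k ^ s * (g i k * g k j * (g i j)⁻¹) : Fin 5 → Fin 5 → Ω) := by
    funext i j
    have hi := h0 i j
    have hj := h0 j i
    show (g * Matrix.diagonal a ^ s * g) i j * g j i * (g i j * g j i)⁻¹ = _
    rw [h4_entry, mul_inv]
    have h6 : (∑ k, a k ^ s * (g i k * g k j)) * g j i * ((g i j)⁻¹ * (g j i)⁻¹) =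
        (∑ k, a k ^ s * (g i k * g k j)) * (g i j)⁻¹ := by
      field_simp
    rw [h6, Finset.sum_mul]
    refine Finset.sum_congr rfl fun k _ => ?_
    ring
  rw [← h5]
  exact h4

private lemma h4_det (a x : Fin 5 → Ω) :
    Matrix.det (Matrix.of fun l m : Fin 5 => ∑ k, a k ^ ((l : ℕ) + (m : ℕ)) * x k) =
      (Matrix.vandermonde a).det ^ 2 * ∏ k, x k := by
  have h : (Matrix.of fun l m : Fin 5 => ∑ k, a k ^ ((l : ℕ) + (m : ℕ)) * x k) =
      (Matrix.vandermonde a)ᵀ * Matrix.diagonal x * Matrix.vandermonde a := by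
    ext l m
    rw [Matrix.of_apply, Matrix.mul_apply]
    refine Finset.sum_congr rfl fun k _ => ?_
    rw [Matrix.mul_diagonal, Matrix.transpose_apply, Matrix.vandermonde_apply,
      Matrix.vandermonde_apply, pow_add]
    ring
  rw [h, Matrix.det_mul, Matrix.det_mul, Matrix.det_transpose, Matrix.det_diagonal]
  ring

private lemma h4_c (D : Subalgebra F (M5 Ω)) (hD : IsForm D) (a : Fin 5 → Ω)
    (ha : Function.Injective a) (hθ : Matrix.diagonal a ∈ D) :
    ∃ c : F, c ≠ 0 ∧ (Matrix.vandermonde a).det ^ 2 = algebraMap F Ω c := by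
  have h1 : ∀ l m : Fin 5, ∃ c : F,
      Matrix.trace (Matrix.diagonal a ^ ((l : ℕ) + (m : ℕ))) = algebraMap F Ω c :=
    fun l m => A7 D hD a ha hθ _ (D.pow_mem hθ _)
  choose C hC using h1
  refine ⟨Matrix.det (Matrix.of C), ?_, ?_⟩
  · intro h0
    have h2 : (Matrix.vandermonde a).det ^ 2 = algebraMap F Ω (Matrix.det (Matrix.of C)) := by
      have h3 := h4_det a (fun _ => (1 : Ω))
      simp only [Finset.prod_const_one, mul_one] at h3
      rw [← h3, RingHom.map_det]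
      congr 1
      ext l m
      rw [RingHom.mapMatrix_apply, Matrix.map_apply, Matrix.of_apply, Matrix.of_apply, ← hC l m,
        Matrix.diagonal_pow, Matrix.trace_diagonal]
      simp only [Pi.pow_apply]
    rw [h0, map_zero] at h2
    exact (Matrix.det_vandermonde_ne_zero_iff.mpr ha) (pow_eq_zero_iff (two_ne_zero) |>.mp h2)
  · have h3 := h4_det a (fun _ => (1 : Ω))
    simp only [Finset.prod_const_one, mul_one] at h3
    rw [← h3, RingHom.map_det]
    congr 1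
    ext l m
    rw [RingHom.mapMatrix_apply, Matrix.map_apply, Matrix.of_apply, Matrix.of_apply, ← hC l m,
      Matrix.diagonal_pow, Matrix.trace_diagonal]
    simp only [Pi.pow_apply]

theorem H4 (D : Subalgebra F (M5 Ω)) (hD : IsForm D) (a : Fin 5 → Ω) (ha : Function.Injective a)
    (hθ : Matrix.diagonal a ∈ D) (g : M5 Ω) (hg : g ∈ D) (h0 : ∀ i j, g i j ≠ 0) :
    (fun i j => (∏ k, (g i k * g k j)) * ((g i j) ^ 5)⁻¹ : Fin 5 → Fin 5 → Ω) ∈ Arr D := by
  obtain ⟨c, hc0, hc⟩ := h4_c D hD a ha hθ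
  have hf := h4_f D hD a ha hθ g hg h0
  set M : Matrix (Fin 5) (Fin 5) (Arr D) := Matrix.of fun l m =>
    ⟨(fun i j => ∑ k, a k ^ ((l : ℕ) + (m : ℕ)) * (g i k * g k j * (g i j)⁻¹)),
      hf ((l : ℕ) + (m : ℕ))⟩ with hM
  have h1 : ((Matrix.det M : Arr D) : Fin 5 → Fin 5 → Ω) ∈ Arr D := (Matrix.det M).2
  have h2 : (algebraMap F (Fin 5 → Fin 5 → Ω) c⁻¹) ∈ Arr D := (Arr D).algebraMap_mem _
  have h3 := (Arr D).mul_mem h1 h2
  have h4 : (((Matrix.det M : Arr D) : Fin 5 → Fin 5 → Ω) * algebraMap F (Fin 5 → Fin 5 → Ω) c⁻¹) =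
      (fun i j => (∏ k, (g i k * g k j)) * ((g i j) ^ 5)⁻¹ : Fin 5 → Fin 5 → Ω) := by
    funext i j
    have h5 : ((Matrix.det M : Arr D) : Fin 5 → Fin 5 → Ω) i j =
        (Matrix.vandermonde a).det ^ 2 * ∏ k, (g i k * g k j * (g i j)⁻¹) := by
      rw [← h4_det]
      let ev : (Arr D) →+* Ω :=
        ((Pi.evalRingHom (fun _ : Fin 5 => Ω) j).comp
          (Pi.evalRingHom (fun _ : Fin 5 => Fin 5 → Ω) i)).comp (Arr D).val.toRingHom
      have h6 : ((Matrix.det M : Arr D) : Fin 5 → Fin 5 → Ω) i j = ev (Matrix.det M) := rfl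
      rw [h6, RingHom.map_det]
      rfl
    show ((Matrix.det M : Arr D) : Fin 5 → Fin 5 → Ω) i j *
      (algebraMap F (Fin 5 → Fin 5 → Ω) c⁻¹) i j = _
    have h7 : (algebraMap F (Fin 5 → Fin 5 → Ω) c⁻¹) i j = (algebraMap F Ω c)⁻¹ := by
      rw [← map_inv₀]
      rfl
    rw [h5, h7, ← hc]
    have hv : (Matrix.vandermonde a).det ^ 2 ≠ 0 := by
      rw [hc]
      exact (map_ne_zero (algebraMap F Ω)).mpr hc0
    have h8 : ∏ k, (g i k * g k j * (g i j)⁻¹) = (∏ k, (g i k * g k j)) * ((g i j) ^ 5)⁻¹ := by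
      rw [Finset.prod_mul_distrib, Finset.prod_const, Finset.card_univ, Fintype.card_fin, inv_pow]
    rw [h8, mul_comm ((Matrix.vandermonde a).det ^ 2) _, mul_assoc, mul_inv_cancel₀ hv, mul_one]
  rw [← h4]
  exact h3

end Pool.Agent.Helper76.C5
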