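import Pool.Agent.Helper76.C5.St.H4
import Pool.Agent.Helper58.CY.A1

/-! C5G H5 (MP_5d2531_al, degree 5 in all characteristics; paper /team-store/C5_full_helper76_v2.md). Rowen element. g ∈ D with all 25 entries nonzero (A1 with the product of all variables). u_ij = g_ij g_ji (H2), n_ij of H4, U_j = prod_k (g_jk g_kj) = n_jj g_jj^5: diagonal (n_ii) = had n 1 ∈ D, diagonal (g_ii) ∈ D (A5), so diagonal U ∈ D. κ_ij = U_j * (n_ij u_ij^3)^-1 ∈ Arr D (H2, H3, col_mem), h = had κ g: h_ij = (g_ij/g_ji)^3 R_j/R_i, R_i = prod_k g_ik. So h_ii = 1, h_ij h_ji = 1. -/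

namespace Pool.Agent.Helper76.C5

open Matrix Finset Pool.Agent.Helper58.CY

variable {F : Type*} {Ω : Type*} [Field F] [Field Ω] [Algebra F Ω]

private lemma h5_dens [Infinite F] (D : Subalgebra F (M5 Ω)) (hD : IsForm D) :
    ∃ g ∈ D, ∀ i j, g i j ≠ 0 := by
  classical
  obtain ⟨g, hg, h1⟩ := A1 D hD (∏ p : Fin 5 × Fin 5, MvPolynomial.X p)
    (Finset.prod_ne_zero_iff.2 fun p _ => MvPolynomial.X_ne_zero p)
  refine ⟨g, hg, fun i j h0 => h1 ?_⟩
  rw [map_prod]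
  refine Finset.prod_eq_zero (Finset.mem_univ (i, j)) ?_
  rw [MvPolynomial.eval_X]
  exact h0

theorem H5 [Infinite F] (D : Subalgebra F (M5 Ω)) (hD : IsForm D) (a : Fin 5 → Ω)
    (ha : Function.Injective a) (hθ : Matrix.diagonal a ∈ D) :
    ∃ h ∈ D, (∀ i, h i i = 1) ∧ ∀ i j, h i j * h j i = 1 := by
  classical
  obtain ⟨g, hg, h0⟩ := h5_dens D hD
  have hgd : Matrix.diagonal (fun i => g i i) ∈ D := A5 D hD a ha hθ g hg
  obtain ⟨n, hn⟩ : ∃ n : Fin 5 → Fin 5 → Ω,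
      n = fun i j => (∏ k, (g i k * g k j)) * ((g i j) ^ 5)⁻¹ := ⟨_, rfl⟩
  have hnA : n ∈ Arr D := by
    rw [hn]
    exact H4 D hD a ha hθ g hg h0
  obtain ⟨u, hu⟩ : ∃ u : Fin 5 → Fin 5 → Ω, u = fun i j => g i j * g j i := ⟨_, rfl⟩
  have huA : u ∈ Arr D := by
    rw [hu]
    exact H2 D hD a ha hθ g g hg hg
  obtain ⟨U, hU⟩ : ∃ U : Fin 5 → Ω, U = fun j => ∏ k, (g j k * g k j) := ⟨_, rfl⟩
  have hn0 : ∀ i j, n i j ≠ 0 := by
    intro i j
    rw [hn]
    exact mul_ne_zero (Finset.prod_ne_zero_iff.2 fun k _ => mul_ne_zero (h0 i k) (h0 k j))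
      (inv_ne_zero (pow_ne_zero 5 (h0 i j)))
  have hu0 : ∀ i j, u i j ≠ 0 := by
    intro i j
    rw [hu]
    exact mul_ne_zero (h0 i j) (h0 j i)
  have hU0 : ∀ j, U j ≠ 0 := by
    intro j
    rw [hU]
    exact Finset.prod_ne_zero_iff.2 fun k _ => mul_ne_zero (h0 j k) (h0 k j)
  have hnd : Matrix.diagonal (fun i => n i i) ∈ D := by
    have h1 : had n 1 ∈ D := hnA 1 D.one_mem
    have h2 : had n 1 = Matrix.diagonal (fun i => n i i) := by
      ext i j
      by_cases hij : i = j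
      · subst hij
        simp [had]
      · simp [had, Matrix.one_apply_ne hij, Matrix.diagonal_apply_ne _ hij]
    rw [← h2]
    exact h1
  have hUD : Matrix.diagonal U ∈ D := by
    have h1 := D.mul_mem hnd (D.pow_mem hgd 5)
    rw [Matrix.diagonal_pow, Matrix.diagonal_mul_diagonal] at h1
    have h2 : (fun i => n i i * ((fun i => g i i) ^ 5 : Fin 5 → Ω) i) = U := by
      funext i
      rw [hn, hU]
      change (∏ k, (g i k * g k i)) * ((g i i) ^ 5)⁻¹ * (g i i) ^ 5 = _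
      rw [mul_assoc, inv_mul_cancel₀ (pow_ne_zero 5 (h0 i i)), mul_one]
    rw [← h2]
    exact h1
  have hUA : (fun _ j => U j : Fin 5 → Fin 5 → Ω) ∈ Arr D := col_mem D U hUD
  obtain ⟨f, hf⟩ : ∃ f : Fin 5 → Fin 5 → Ω, f = n * u ^ 3 := ⟨_, rfl⟩
  have hfA : f ∈ Arr D := by
    rw [hf]
    exact (Arr D).mul_mem hnA ((Arr D).pow_mem huA 3)
  have hfe : ∀ i j, f i j = n i j * u i j ^ 3 := by
    intro i j
    rw [hf]
    rfl
  have hf0 : ∀ i j, f i j ≠ 0 := by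
    intro i j
    rw [hfe]
    exact mul_ne_zero (hn0 i j) (pow_ne_zero 3 (hu0 i j))
  have hfi := H3 D hD f hfA hf0
  have hκ := (Arr D).mul_mem hUA hfi
  have hh := hκ g hg
  refine ⟨_, hh, fun i => ?_, fun i j => ?_⟩
  · change U i * (f i i)⁻¹ * g i i = 1
    have h1 : f i i * 1 = U i * g i i := by
      rw [hfe, hn, hu, hU]
      change (∏ k, (g i k * g k i)) * ((g i i) ^ 5)⁻¹ * (g i i * g i i) ^ 3 * 1 =
        (∏ k, (g i k * g k i)) * g i i
      have h2 := h0 i i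
      field_simp
    have h3 : U i * g i i = f i i := by
      rw [← h1, mul_one]
    calc U i * (f i i)⁻¹ * g i i = (U i * g i i) * (f i i)⁻¹ := by ring
      _ = 1 := by rw [h3, mul_inv_cancel₀ (hf0 i i)]
  · change U j * (f i j)⁻¹ * g i j * (U i * (f j i)⁻¹ * g j i) = 1
    have h1 : U j * g i j * (U i * g j i) = f i j * f j i := by
      rw [hfe, hfe, hn, hu, hU]
      change (∏ k, (g j k * g k j)) * g i j * ((∏ k, (g i k * g k i)) * g j i) =
        (∏ k, (g i k * g k j)) * ((g i j) ^ 5)⁻¹ * (g i j * g j i) ^ 3 *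
        ((∏ k, (g j k * g k i)) * ((g j i) ^ 5)⁻¹ * (g j i * g i j) ^ 3)
      have h2 : (∏ k, (g j k * g k j)) * (∏ k, (g i k * g k i)) =
          (∏ k, (g i k * g k j)) * (∏ k, (g j k * g k i)) := by
        rw [← Finset.prod_mul_distrib, ← Finset.prod_mul_distrib]
        exact Finset.prod_congr rfl fun k _ => by ring
      obtain ⟨P, hP⟩ : ∃ P : Ω, P = ∏ k, (g j k * g k j) := ⟨_, rfl⟩
      obtain ⟨Q, hQ⟩ : ∃ Q : Ω, Q = ∏ k, (g i k * g k i) := ⟨_, rfl⟩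
      obtain ⟨R, hR⟩ : ∃ R : Ω, R = ∏ k, (g i k * g k j) := ⟨_, rfl⟩
      obtain ⟨S, hS⟩ : ∃ S : Ω, S = ∏ k, (g j k * g k i) := ⟨_, rfl⟩
      rw [← hP, ← hQ, ← hR, ← hS] at h2
      rw [← hP, ← hQ, ← hR, ← hS]
      have h3 := h0 i j
      have h4 := h0 j i
      calc P * g i j * (Q * g j i) = P * Q * (g i j * g j i) := by ring
        _ = R * S * (g i j * g j i) := by rw [h2]
        _ = R * (g i j ^ 5)⁻¹ * (g i j * g j i) ^ 3 *
            (S * (g j i ^ 5)⁻¹ * (g j i * g i j) ^ 3) := by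
          field_simp
    calc U j * (f i j)⁻¹ * g i j * (U i * (f j i)⁻¹ * g j i)
        = (U j * g i j * (U i * g j i)) * ((f i j)⁻¹ * (f j i)⁻¹) := by ring
      _ = 1 := by
        rw [h1]
        have h3 := hf0 i j
        have h4 := hf0 j i
        field_simp

end Pool.Agent.Helper76.C5
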