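import Pool.Agent.Helper76.C5.St.P2
import Pool.Agent.Helper58.CY.A3a
import Pool.Agent.Helper58.CY.A6

/-! C5G P3 (MP_5d2531_al, degree 5 in all characteristics; paper /team-store/C5_full_helper76_v2.md). The plane. L = {v : diagonal v ∈ D} is an F-space with basis the powers p_k = a^k (A6, Vandermonde), dim 5, and it spans Ω^5 over Ω. The trace t : L → F, t v = sum v_i (A7), is onto (disc <> 0: A3a), L0 = ker t has an F-basis b1..b4, w0 ∈ L with t(w0) = 1. omega restricted to L0 (values in F by P2): e = w(b2,b3,b4) b1 - w(b1,b3,b4) b2 + w(b1,b2,b4) b3 - w(b1,b2,b3) b4 satisfies omega(e,bi,bj) = 0 (direct from alternation); if e = 0 then omega = 0 on L0, take e = b1. Then choose v ∈ L0 outside F e with omega(e,v,w0) = 0: the kernel of a linear functional on the 4-dim L0 has dim >= 3. u := e. Then omega(u,v,w) = 0 for w in L0 + F w0 = L and then for all w ∈ Ω^5. -/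

namespace Pool.Agent.Helper76.C5

open Matrix Finset Pool.Agent.Helper58.CY

variable {F : Type*} {Ω : Type*} [Field F] [Field Ω] [Algebra F Ω]

private lemma p3_form (W : Fin 4 → Fin 4 → Fin 4 → F) (hcyc : ∀ i j k, W j k i = W i j k)
    (hsw : ∀ i j k, W j i k = -W i j k) (hself : ∀ i k, W i i k = 0) :
    ∃ s : Fin 4 → F, s ≠ 0 ∧ ∀ j k, ∑ i, s i * W i j k = 0 := by
  have hself2 : ∀ i k, W i k i = 0 := fun i k => (hcyc i i k).trans (hself i k)
  have hself3 : ∀ i k, W k i i = 0 := fun i k => (hcyc i k i).trans (hself2 i k)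
  have q120 : W 1 2 0 = W 0 1 2 := (hcyc 0 1 2)
  have q201 : W 2 0 1 = W 0 1 2 := ((hcyc 1 2 0).trans (hcyc 0 1 2))
  have q102 : W 1 0 2 = -W 0 1 2 := (hsw 0 1 2)
  have q021 : W 0 2 1 = -W 0 1 2 := ((hcyc 1 0 2).trans (hsw 0 1 2))
  have q210 : W 2 1 0 = -W 0 1 2 := ((hcyc 0 2 1).trans ((hcyc 1 0 2).trans (hsw 0 1 2)))
  have q130 : W 1 3 0 = W 0 1 3 := (hcyc 0 1 3)
  have q301 : W 3 0 1 = W 0 1 3 := ((hcyc 1 3 0).trans (hcyc 0 1 3))
  have q103 : W 1 0 3 = -W 0 1 3 := (hsw 0 1 3)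
  have q031 : W 0 3 1 = -W 0 1 3 := ((hcyc 1 0 3).trans (hsw 0 1 3))
  have q310 : W 3 1 0 = -W 0 1 3 := ((hcyc 0 3 1).trans ((hcyc 1 0 3).trans (hsw 0 1 3)))
  have q230 : W 2 3 0 = W 0 2 3 := (hcyc 0 2 3)
  have q302 : W 3 0 2 = W 0 2 3 := ((hcyc 2 3 0).trans (hcyc 0 2 3))
  have q203 : W 2 0 3 = -W 0 2 3 := (hsw 0 2 3)
  have q032 : W 0 3 2 = -W 0 2 3 := ((hcyc 2 0 3).trans (hsw 0 2 3))
  have q320 : W 3 2 0 = -W 0 2 3 := ((hcyc 0 3 2).trans ((hcyc 2 0 3).trans (hsw 0 2 3)))
  have q231 : W 2 3 1 = W 1 2 3 := (hcyc 1 2 3)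
  have q312 : W 3 1 2 = W 1 2 3 := ((hcyc 2 3 1).trans (hcyc 1 2 3))
  have q213 : W 2 1 3 = -W 1 2 3 := (hsw 1 2 3)
  have q132 : W 1 3 2 = -W 1 2 3 := ((hcyc 2 1 3).trans (hsw 1 2 3))
  have q321 : W 3 2 1 = -W 1 2 3 := ((hcyc 1 3 2).trans ((hcyc 2 1 3).trans (hsw 1 2 3)))
  by_cases h0 : W 1 2 3 = 0 ∧ W 0 2 3 = 0 ∧ W 0 1 3 = 0 ∧ W 0 1 2 = 0
  · obtain ⟨h1, h2, h3, h4⟩ := h0
    refine ⟨![1, 0, 0, 0], fun h => one_ne_zero (congrFun h 0), ?_⟩
    intro j k
    fin_cases j <;> fin_cases k <;>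
      simp [Fin.sum_univ_four, hself, hself2, hself3, h1, h2, h3, h4, q120, q201, q102, q021, q210, q130, q301, q103, q031, q310, q230, q302, q203, q032, q320, q231, q312, q213, q132, q321]
  · refine ⟨![W 1 2 3, -W 0 2 3, W 0 1 3, -W 0 1 2], ?_, ?_⟩
    · intro h
      apply h0
      have e0 := congrFun h 0
      have e1 := congrFun h 1
      have e2 := congrFun h 2
      have e3 := congrFun h 3
      simp at e0 e1 e2 e3
      exact ⟨e0, e1, e2, e3⟩
    · intro j k
      fin_cases j <;> fin_cases k <;>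
        simp [Fin.sum_univ_four, hself, hself2, hself3, q120, q201, q102, q021, q210, q130, q301, q103, q031, q310, q230, q302, q203, q032, q320, q231, q312, q213, q132, q321] <;> ring

private lemma p3_pick (s H : Fin 4 → F) :
    ∃ x : Fin 4 → F, x ∉ Submodule.span F {s} ∧ ∑ j, x j * H j = 0 := by
  by_contra hcon
  push Not at hcon
  let g : (Fin 4 → F) →ₗ[F] F :=
    { toFun := fun x => ∑ j, x j * H j
      map_add' := fun x y => by simp [add_mul, Finset.sum_add_distrib]
      map_smul' := fun c x => by simp [Finset.mul_sum, mul_assoc] }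
  have hle : LinearMap.ker g ≤ Submodule.span F {s} := by
    intro x hx
    by_contra hxs
    exact hcon x hxs (LinearMap.mem_ker.mp hx)
  have h1 : Module.finrank F (LinearMap.ker g) ≤ 1 :=
    (Submodule.finrank_mono hle).trans (finrank_span_le_card ({s} : Set (Fin 4 → F)) |>.trans (by simp))
  have h2 : Module.finrank F (LinearMap.range g) ≤ 1 := by
    have := Submodule.finrank_le (LinearMap.range g)
    simpa using this
  have h3 := LinearMap.finrank_range_add_finrank_ker g
  have h4 : Module.finrank F (Fin 4 → F) = 4 := by simp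
  omega

private def p3A (h : M5 Ω) (v w : Fin 5 → Ω) : (Fin 5 → Ω) →ₗ[Ω] Ω where
  toFun u := om h u v w
  map_add' x y := by
    have := om_lin1 h 1 1 x y v w
    simpa using this
  map_smul' c x := by
    have := om_lin1 h c 0 x 0 v w
    simpa using this

private def p3B (h : M5 Ω) (u w : Fin 5 → Ω) : (Fin 5 → Ω) →ₗ[Ω] Ω where
  toFun v := om h u v w
  map_add' x y := by
    have := om_lin2 h 1 1 u x y w
    simpa using this
  map_smul' c x := by
    have := om_lin2 h c 0 u x 0 w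
    simpa using this

private def p3C (h : M5 Ω) (u v : Fin 5 → Ω) : (Fin 5 → Ω) →ₗ[Ω] Ω where
  toFun w := om h u v w
  map_add' x y := by
    have := om_lin3 h 1 1 u v x y
    simpa using this
  map_smul' c x := by
    have := om_lin3 h c 0 u v x 0
    simpa using this

private lemma p3_sum (h : M5 Ω) (b : Fin 4 → Fin 5 → Ω) (s x : Fin 4 → F) (w : Fin 5 → Ω)
    (W : Fin 4 → Fin 4 → F) (hW : ∀ i j, om h (b i) (b j) w = algebraMap F Ω (W i j)) :
    om h (∑ i, s i • b i) (∑ j, x j • b j) w =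
      algebraMap F Ω (∑ j, x j * ∑ i, s i * W i j) := by
  have h1 : ∀ v, om h (∑ i, s i • b i) v w = ∑ i, algebraMap F Ω (s i) * om h (b i) v w := by
    intro v
    change p3A h v w (∑ i, s i • b i) = _
    rw [map_sum]
    refine Finset.sum_congr rfl fun i _ => ?_
    rw [← algebraMap_smul Ω (s i) (b i), map_smul]
    rfl
  have h2 : ∀ u, om h u (∑ j, x j • b j) w = ∑ j, algebraMap F Ω (x j) * om h u (b j) w := by
    intro u
    change p3B h u w (∑ j, x j • b j) = _
    rw [map_sum]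
    refine Finset.sum_congr rfl fun i _ => ?_
    rw [← algebraMap_smul Ω (x i) (b i), map_smul]
    rfl
  rw [h2, map_sum]
  refine Finset.sum_congr rfl fun j _ => ?_
  rw [h1, map_mul, map_sum]
  congr 1
  refine Finset.sum_congr rfl fun i _ => ?_
  rw [hW, map_mul]

private lemma p3_alg (h : M5 Ω) (b : Fin 4 → Fin 5 → Ω) (w0 : Fin 5 → Ω)
    (hW : ∀ i j k, ∃ c : F, om h (b i) (b j) (b k) = algebraMap F Ω c)
    (hG : ∀ i j, ∃ c : F, om h (b i) (b j) w0 = algebraMap F Ω c) :
    ∃ s x : Fin 4 → F, (∀ c c1 : F, c • s + c1 • x = 0 → c = 0 ∧ c1 = 0) ∧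
      (∀ k, om h (∑ i, s i • b i) (∑ j, x j • b j) (b k) = 0) ∧
      om h (∑ i, s i • b i) (∑ j, x j • b j) w0 = 0 := by
  choose W hW using hW
  choose G hG using hG
  have hinj : Function.Injective (algebraMap F Ω) := (algebraMap F Ω).injective
  obtain ⟨s, hs0, hs⟩ := p3_form W
    (fun i j k => hinj (by rw [← hW, ← hW, om_cyc]))
    (fun i j k => hinj (by rw [← hW, map_neg, ← hW, om_swap]))
    (fun i k => hinj (by rw [← hW, map_zero, om_self]))
  obtain ⟨x, hx, hxG⟩ := p3_pick s (fun j => ∑ i, s i * G i j)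
  refine ⟨s, x, ?_, ?_, ?_⟩
  · intro c c1 hc
    have hc1 : c1 = 0 := by
      by_contra hne
      apply hx
      rw [Submodule.mem_span_singleton]
      refine ⟨-(c1⁻¹ * c), ?_⟩
      have h2 : c1 • x = -(c • s) := by
        rw [eq_neg_iff_add_eq_zero, add_comm]
        exact hc
      calc (-(c1⁻¹ * c)) • s = c1⁻¹ • (-(c • s)) := by rw [smul_neg, smul_smul, neg_smul]
        _ = c1⁻¹ • (c1 • x) := by rw [h2]
        _ = x := by rw [smul_smul, inv_mul_cancel₀ hne, one_smul]
    refine ⟨?_, hc1⟩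
    rw [hc1, zero_smul, add_zero] at hc
    rcases smul_eq_zero.mp hc with h3 | h3
    · exact h3
    · exact absurd h3 hs0
  · intro k
    rw [p3_sum h b s x (b k) (fun i j => W i j k) (fun i j => hW i j k)]
    have : ∑ j, x j * ∑ i, s i * W i j k = 0 :=
      Finset.sum_eq_zero fun j _ => by rw [hs, mul_zero]
    rw [this, map_zero]
  · rw [p3_sum h b s x w0 G hG, hxG, map_zero]

theorem P3 (D : Subalgebra F (M5 Ω)) (hD : IsForm D) (a : Fin 5 → Ω) (ha : Function.Injective a)
    (hθ : Matrix.diagonal a ∈ D) (h : M5 Ω) (hh : h ∈ D) :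
    ∃ u v : Fin 5 → Ω, Matrix.diagonal u ∈ D ∧ Matrix.diagonal v ∈ D ∧ ∑ i, u i = 0 ∧ ∑ i, v i = 0 ∧
      (∀ c c1 : F, c • u + c1 • v = 0 → c = 0 ∧ c1 = 0) ∧ ∀ w : Fin 5 → Ω, om h u v w = 0 := by
  classical
  -- the space `L`
  let L : Submodule F (Fin 5 → Ω) :=
    { carrier := {v | Matrix.diagonal v ∈ D}
      add_mem' := by
        intro v w hv hw
        change Matrix.diagonal (v + w) ∈ D
        have := D.add_mem hv hw
        rwa [Matrix.diagonal_add] at this
      zero_mem' := by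
        change Matrix.diagonal (0 : Fin 5 → Ω) ∈ D
        have := D.zero_mem
        rwa [← Matrix.diagonal_zero] at this
      smul_mem' := by
        intro c v hv
        change Matrix.diagonal (c • v) ∈ D
        have := D.smul_mem hv c
        rwa [← Matrix.diagonal_smul] at this }
  have hL : ∀ v, v ∈ L ↔ Matrix.diagonal v ∈ D := fun v => Iff.rfl
  let p : Fin 5 → Fin 5 → Ω := fun k => a ^ (k : ℕ)
  have hp : ∀ k, p k ∈ L := by
    intro k
    rw [hL]
    have := D.pow_mem hθ (k : ℕ)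
    rwa [Matrix.diagonal_pow] at this
  -- traces
  have htr : ∀ v ∈ L, ∃ c : F, ∑ i, v i = algebraMap F Ω c := by
    intro v hv
    obtain ⟨c, hc⟩ := A7 D hD a ha hθ _ hv
    refine ⟨c, ?_⟩
    rw [← hc, Matrix.trace_diagonal]
  choose tr htr using htr
  -- independence of the powers
  have hdet : (Matrix.vandermonde a).det ≠ 0 := (Matrix.det_vandermonde_ne_zero_iff).mpr ha
  have hind : ∀ z : Fin 5 → Ω, ∑ k, z k • p k = 0 → z = 0 := by
    intro z hz
    have h1 : (Matrix.vandermonde a).mulVec z = 0 := by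
      ext i
      have := congrFun hz i
      simp only [Finset.sum_apply, Pi.smul_apply, smul_eq_mul, Pi.zero_apply, p, Pi.pow_apply] at this
      simp only [Matrix.mulVec, dotProduct, Matrix.vandermonde_apply, Pi.zero_apply]
      rw [← this]
      exact Finset.sum_congr rfl fun k _ => mul_comm _ _
    exact Matrix.eq_zero_of_mulVec_eq_zero hdet h1
  have hspan : ∀ w : Fin 5 → Ω, ∃ z : Fin 5 → Ω, w = ∑ k, z k • p k := by
    intro w
    refine ⟨(Matrix.vandermonde a)⁻¹.mulVec w, ?_⟩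
    have h1 : (Matrix.vandermonde a).mulVec ((Matrix.vandermonde a)⁻¹.mulVec w) = w := by
      rw [Matrix.mulVec_mulVec, Matrix.mul_nonsing_inv _ (isUnit_iff_ne_zero.mpr hdet),
        Matrix.one_mulVec]
    ext i
    conv_lhs => rw [← h1]
    simp only [Finset.sum_apply, Pi.smul_apply, smul_eq_mul, p, Pi.pow_apply]
    simp only [Matrix.mulVec, dotProduct, Matrix.vandermonde_apply]
    exact Finset.sum_congr rfl fun k _ => mul_comm _ _
  -- some power has nonzero trace
  obtain ⟨k0, hk0⟩ : ∃ k0 : Fin 5, tr (p k0) (hp k0) ≠ 0 := by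
    by_contra hcon
    push Not at hcon
    apply A3a a ha
    unfold discM
    apply Matrix.det_eq_zero_of_row_eq_zero (0 : Fin 5)
    intro j
    rw [Matrix.of_apply, Matrix.diagonal_pow, Matrix.trace_diagonal]
    have h1 := htr (p j) (hp j)
    rw [hcon j, map_zero] at h1
    simpa [p] using h1
  set c0 := tr (p k0) (hp k0) with hc0
  let w0 : Fin 5 → Ω := c0⁻¹ • p k0
  have hw0L : w0 ∈ L := L.smul_mem _ (hp k0)
  have hw0 : ∑ i, w0 i = 1 := by
    have h1 := htr (p k0) (hp k0)
    simp only [w0, Pi.smul_apply]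
    rw [← Finset.smul_sum, h1, ← hc0, Algebra.smul_def, ← map_mul, inv_mul_cancel₀ hk0, map_one]
  let q : Fin 4 → Fin 5 := k0.succAbove
  let cc : Fin 4 → F := fun j => tr (p (q j)) (hp (q j))
  let b : Fin 4 → Fin 5 → Ω := fun j => p (q j) - cc j • w0
  have hbL : ∀ j, b j ∈ L := fun j => L.sub_mem (hp _) (L.smul_mem _ hw0L)
  have hb0 : ∀ j, ∑ i, b j i = 0 := by
    intro j
    simp only [b, Pi.sub_apply, Pi.smul_apply]
    rw [Finset.sum_sub_distrib, htr (p (q j)) (hp (q j)), ← Finset.smul_sum, hw0,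
      Algebra.smul_def, mul_one, sub_self]
  -- independence of the `b`
  have hbind : ∀ y : Fin 4 → F, ∑ j, y j • b j = 0 → y = 0 := by
    intro y hy
    let z : Fin 5 → Ω := k0.insertNth (-(algebraMap F Ω ((∑ j, y j * cc j) * c0⁻¹)))
      (fun j => algebraMap F Ω (y j))
    have hz : ∑ k, z k • p k = 0 := by
      rw [Fin.sum_univ_succAbove _ k0]
      simp only [z, Fin.insertNth_apply_same, Fin.insertNth_apply_succAbove]
      have h2 : ∑ j, y j • b j = ∑ j, y j • p (q j) - (∑ j, y j * cc j) • w0 := by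
        simp only [b, smul_sub, Finset.sum_sub_distrib, Finset.sum_smul, mul_smul]
      rw [h2] at hy
      rw [neg_smul, algebraMap_smul, mul_smul]
      have h3 : ∑ j : Fin 4, algebraMap F Ω (y j) • p (k0.succAbove j) = ∑ j, y j • p (q j) :=
        Finset.sum_congr rfl fun j _ => algebraMap_smul Ω (y j) _
      rw [h3]
      rw [neg_add_eq_sub]
      exact hy
    have hz0 := hind z hz
    ext j
    have := congrFun hz0 (k0.succAbove j)
    simp only [z, Fin.insertNth_apply_succAbove, Pi.zero_apply] at this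
    exact (algebraMap F Ω).injective (this.trans (map_zero _).symm)
  obtain ⟨s, x, hsx, hk, hw⟩ := p3_alg h b w0
    (fun i j k => P2 D hD a ha hθ h hh _ _ _ (hbL i) (hbL j) (hbL k))
    (fun i j => P2 D hD a ha hθ h hh _ _ _ (hbL i) (hbL j) hw0L)
  have hsum0 : ∀ y : Fin 4 → F, ∑ i, (∑ j, y j • b j) i = 0 := by
    intro y
    simp only [Finset.sum_apply, Pi.smul_apply]
    rw [Finset.sum_comm]
    refine Finset.sum_eq_zero fun j _ => ?_
    rw [← Finset.smul_sum, hb0, smul_zero]
  refine ⟨∑ i, s i • b i, ∑ j, x j • b j, ?_, ?_, hsum0 s, hsum0 x, ?_, ?_⟩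
  · exact L.sum_mem fun i _ => L.smul_mem _ (hbL i)
  · exact L.sum_mem fun i _ => L.smul_mem _ (hbL i)
  · intro c c1 hc
    apply hsx
    apply hbind
    rw [← hc, Finset.smul_sum, Finset.smul_sum, ← Finset.sum_add_distrib]
    refine Finset.sum_congr rfl fun j _ => ?_
    simp only [Pi.add_apply, Pi.smul_apply, smul_eq_mul]
    rw [add_smul, mul_smul, mul_smul]
  · intro w
    obtain ⟨z, rfl⟩ := hspan w
    change p3C h _ _ (∑ k, z k • p k) = 0
    rw [map_sum]
    refine Finset.sum_eq_zero fun k _ => ?_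
    rw [map_smul]
    have hpk : p3C h (∑ i, s i • b i) (∑ j, x j • b j) (p k) = 0 := by
      have hw' : p3C h (∑ i, s i • b i) (∑ j, x j • b j) w0 = 0 := hw
      rcases eq_or_ne k k0 with rfl | hne
      · have : p k = algebraMap F Ω c0 • w0 := by
          simp only [w0]
          rw [algebraMap_smul, smul_smul, mul_inv_cancel₀ hk0, one_smul]
        rw [this, map_smul, hw', smul_zero]
      · obtain ⟨j, rfl⟩ := Fin.exists_succAbove_eq hne
        have : p (k0.succAbove j) = b j + algebraMap F Ω (cc j) • w0 := by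
          simp only [b, q]
          rw [algebraMap_smul, sub_add_cancel]
        have hb' : p3C h (∑ i, s i • b i) (∑ j, x j • b j) (b j) = 0 := hk j
        rw [this, map_add, map_smul, hw', hb', smul_zero, add_zero]
    rw [hpk, smul_zero]

end Pool.Agent.Helper76.C5
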