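import Pool.Agent.Helper76.C5.St.C2
import Pool.Agent.Helper76.C5.St.D1
import Pool.Agent.Helper76.C5.St.D2
import Pool.Agent.Helper76.C5.St.H5
import Pool.Agent.Helper76.C5.St.P3

/-! C5G M1 (MP_5d2531_al, degree 5 in all characteristics; paper /team-store/C5_full_helper76_v2.md). Division forms with diagonal a ∈ D: h from H5, u, v from P3, k = V h U - U h V ∈ D (entries (v_i u_j - u_i v_j) h_ij), k <> 0, k^-1 ∈ D; functional (c,c1) ↦ tr(k^-1 (c U + c1 V)) ∈ F (A7) has a nontrivial zero: r = c u + c1 v, s the other basis vector of the plane (r_i s_j - r_j s_i = const (v_i u_j - ...)), R = diagonal r ∈ D invertible so r_i <> 0; XX h r s ∈ D; E2 = 0 (D1), E3 = 0 (D2), tr adj = det * tr(inverse) = 0; C2; det <> 0; not scalar because of the zero diagonal. -/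

namespace Pool.Agent.Helper76.C5

open Matrix Finset Pool.Agent.Helper58.CY

variable {F : Type*} {Ω : Type*} [Field F] [Field Ω] [Algebra F Ω]

/-- scalars in `D` come from `F` -/
private theorem m1_scalar (D : Subalgebra F (M5 Ω)) (hD : IsForm D)
    (a : Fin 5 → Ω) (ha : Function.Injective a) (hθ : Matrix.diagonal a ∈ D)
    (c : Ω) (hc : Matrix.diagonal (fun _ : Fin 5 => c) ∈ D) : ∃ c0 : F, c = algebraMap F Ω c0 := by
  obtain ⟨w, hw⟩ := Pool.Agent.Helper58.CY.A6 D hD a ha hθ (fun _ => c) hc
  refine ⟨w 0, ?_⟩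
  have hent : ∀ i : Fin 5, c = ∑ k : Fin 5, algebraMap F Ω (w k) * a i ^ (k : ℕ) := by
    intro i
    have h := congrFun (congrFun hw i) i
    have h' : c = ∑ k : Fin 5, w k • a i ^ (k : ℕ) := by
      simpa [Matrix.sum_apply, Matrix.diagonal_pow] using h
    rw [h']
    exact Finset.sum_congr rfl fun k _ => Algebra.smul_def _ _
  -- Vandermonde
  let q : Fin 5 → Ω := fun k => algebraMap F Ω (w k) - (if k = 0 then c else 0)
  have hq : (Matrix.vandermonde a).mulVec q = 0 := by
    ext i
    have h := hent i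
    simp only [Matrix.mulVec, dotProduct, Matrix.vandermonde_apply, q, Pi.zero_apply, mul_sub,
      Finset.sum_sub_distrib]
    rw [sub_eq_zero]
    have e : ∑ k : Fin 5, a i ^ (k : ℕ) * (if k = 0 then c else 0) = c := by
      simp
    rw [e]
    conv_rhs => rw [h]
    exact Finset.sum_congr rfl fun k _ => mul_comm _ _
  have hdet : (Matrix.vandermonde a).det ≠ 0 := Matrix.det_vandermonde_ne_zero_iff.mpr ha
  have hq0 := Matrix.eq_zero_of_mulVec_eq_zero hdet hq
  have h0 := congrFun hq0 0
  simp only [q, if_true, Pi.zero_apply] at h0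
  exact (sub_eq_zero.mp h0).symm

private theorem m1_choice (α β : F) :
    ∃ c c1 d d1 : F, c * α + c1 * β = 0 ∧ c * d1 - c1 * d ≠ 0 := by
  by_cases hα : α = 0
  · by_cases hβ : β = 0
    · exact ⟨1, 0, 0, 1, by simp [hα, hβ], by simp⟩
    · exact ⟨1, 0, 0, 1, by simp [hα], by simp⟩
  · exact ⟨β, -α, 1, 0, by ring, by simpa using hα⟩

theorem M1 [Infinite F] (D : Subalgebra F (M5 Ω)) (hD : IsForm D) (hdiv : IsDiv D)
    (a : Fin 5 → Ω) (ha : Function.Injective a) (hθ : Matrix.diagonal a ∈ D) :
    ∃ z ∈ D, (∀ c : Ω, z ≠ c • (1 : M5 Ω)) ∧ ∃ c : Ω, c ≠ 0 ∧ z ^ 5 = c • (1 : M5 Ω) := by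
  classical
  obtain ⟨h, hhD, hdiag, hinv⟩ := H5 D hD a ha hθ
  obtain ⟨u, v, huD, hvD, hu0, hv0, hli, hom⟩ := P3 D hD a ha hθ h hhD
  have hh0 : ∀ i j, h i j ≠ 0 := fun i j h0 => by
    have := hinv i j
    rw [h0, zero_mul] at this
    exact zero_ne_one this
  set k : M5 Ω := Matrix.diagonal v * h * Matrix.diagonal u - Matrix.diagonal u * h * Matrix.diagonal v
    with hk
  have hkD : k ∈ D := D.sub_mem (D.mul_mem (D.mul_mem hvD hhD) huD) (D.mul_mem (D.mul_mem huD hhD) hvD)
  have hkij : ∀ i j, k i j = (v i * u j - u i * v j) * h i j := by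
    intro i j
    rw [hk, Matrix.sub_apply, Matrix.mul_diagonal, Matrix.diagonal_mul, Matrix.mul_diagonal,
      Matrix.diagonal_mul]
    ring
  -- k is not zero
  have hk0 : k ≠ 0 := by
    intro hk0
    have hu_ne : Matrix.diagonal u ≠ 0 := by
      intro h0
      have hu : u = 0 := by
        have := Matrix.diagonal_injective (h0.trans (Matrix.diagonal_zero).symm)
        exact this
      have := (hli 1 0 (by rw [hu]; simp)).1
      exact one_ne_zero this
    obtain ⟨U', hU'D, hU'⟩ := hdiv _ huD hu_ne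
    have hui : ∀ i, u i ≠ 0 := by
      intro i h0
      have := congrFun (congrFun hU' i) i
      rw [Matrix.diagonal_mul, h0, zero_mul, Matrix.one_apply_eq] at this
      exact zero_ne_one this
    have hU'eq : U' = Matrix.diagonal (fun i => (u i)⁻¹) := by
      ext i j
      have h1 := congrFun (congrFun hU' i) j
      rw [Matrix.diagonal_mul] at h1
      have h2 : U' i j = (u i)⁻¹ * (1 : M5 Ω) i j := by
        rw [← h1, ← mul_assoc, inv_mul_cancel₀ (hui i), one_mul]
      rw [h2]
      by_cases hij : i = j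
      · subst hij; simp
      · simp [hij]
    have hcross : ∀ i j, v i * u j = u i * v j := by
      intro i j
      have h1 := hkij i j
      rw [hk0, Matrix.zero_apply] at h1
      have h2 := (mul_eq_zero.mp h1.symm).resolve_right (hh0 i j)
      exact sub_eq_zero.mp h2
    have hVU : Matrix.diagonal v * U' = Matrix.diagonal (fun _ : Fin 5 => v 0 * (u 0)⁻¹) := by
      rw [hU'eq, Matrix.diagonal_mul_diagonal]
      congr 1
      funext i
      have h1 := hcross i 0
      have h2 := hui 0
      have h3 := hui i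
      field_simp
      rw [h1]
    have hmem : Matrix.diagonal (fun _ : Fin 5 => v 0 * (u 0)⁻¹) ∈ D := by
      rw [← hVU]; exact D.mul_mem hvD hU'D
    obtain ⟨c0, hc0⟩ := m1_scalar D hD a ha hθ _ hmem
    have hvu : ∀ i, v i = algebraMap F Ω c0 * u i := by
      intro i
      rw [← hc0]
      have h1 := hcross i 0
      have h2 := hui 0
      field_simp
      rw [h1]
      ring
    have := (hli c0 (-1) (by
      funext i
      have e : (c0 • u + (-1 : F) • v) i = algebraMap F Ω c0 * u i - v i := by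
        simp [Algebra.smul_def, sub_eq_add_neg]
      rw [e, hvu i, sub_self, Pi.zero_apply])).2
    exact one_ne_zero (neg_eq_zero.mp this)
  obtain ⟨k', hk'D, hkk'⟩ := hdiv k hkD hk0
  have hk'k : k' * k = 1 := mul_eq_one_comm.mp hkk'
  obtain ⟨α, hα⟩ := Pool.Agent.Helper58.CY.A7 D hD a ha hθ (k' * Matrix.diagonal u) (D.mul_mem hk'D huD)
  obtain ⟨β, hβ⟩ := Pool.Agent.Helper58.CY.A7 D hD a ha hθ (k' * Matrix.diagonal v) (D.mul_mem hk'D hvD)
  obtain ⟨c, c1, d, d1, hcc, hδ⟩ := m1_choice α β
  set r : Fin 5 → Ω := c • u + c1 • v with hr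
  set s : Fin 5 → Ω := d • u + d1 • v with hs
  set δ : Ω := algebraMap F Ω (c * d1 - c1 * d) with hδdef
  have hδ0 : δ ≠ 0 := by
    rw [hδdef]
    exact (map_ne_zero_iff _ (algebraMap F Ω).injective).mpr hδ
  have hri : ∀ i, r i = algebraMap F Ω c * u i + algebraMap F Ω c1 * v i := by
    intro i; simp [hr, Algebra.smul_def]
  have hsi : ∀ i, s i = algebraMap F Ω d * u i + algebraMap F Ω d1 * v i := by
    intro i; simp [hs, Algebra.smul_def]
  have hRD : Matrix.diagonal r ∈ D := by
    have e : Matrix.diagonal r = c • Matrix.diagonal u + c1 • Matrix.diagonal v := by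
      rw [hr, ← Matrix.diagonal_smul, ← Matrix.diagonal_smul, Matrix.diagonal_add]
      rfl
    rw [e]
    exact D.add_mem (D.smul_mem huD c) (D.smul_mem hvD c1)
  have hR0 : Matrix.diagonal r ≠ 0 := by
    intro h0
    have hr0 : r = 0 := Matrix.diagonal_injective (h0.trans (Matrix.diagonal_zero).symm)
    obtain ⟨e1, e2⟩ := hli c c1 (by rw [← hr, hr0])
    apply hδ
    rw [e1, e2]; ring
  obtain ⟨R', hR'D, hRR'⟩ := hdiv _ hRD hR0
  have hR'R : R' * Matrix.diagonal r = 1 := mul_eq_one_comm.mp hRR'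
  have hrne : ∀ i, r i ≠ 0 := by
    intro i h0
    have := congrFun (congrFun hRR' i) i
    rw [Matrix.diagonal_mul, h0, zero_mul, Matrix.one_apply_eq] at this
    exact zero_ne_one this
  have hR'eq : R' = Matrix.diagonal (fun i => (r i)⁻¹) := by
    ext i j
    have h1 := congrFun (congrFun hRR' i) j
    rw [Matrix.diagonal_mul] at h1
    have h2 : R' i j = (r i)⁻¹ * (1 : M5 Ω) i j := by
      rw [← h1, ← mul_assoc, inv_mul_cancel₀ (hrne i), one_mul]
    rw [h2]
    by_cases hij : i = j
    · subst hij; simp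
    · simp [hij]
  set X : M5 Ω := XX h r s with hX
  have hXeq : X = (-δ) • (R' * k) := by
    ext i j
    rw [hX, hR'eq, Matrix.smul_apply, Matrix.diagonal_mul, hkij i j]
    simp only [XX, Matrix.of_apply, smul_eq_mul]
    have e : r i * s j - r j * s i = -δ * (v i * u j - u i * v j) := by
      rw [hri i, hri j, hsi i, hsi j, hδdef, map_sub, map_mul, map_mul]
      ring
    rw [e]; ring
  have hXD : X ∈ D := by
    have e : X = (-(c * d1 - c1 * d)) • (R' * k) := by
      rw [hXeq, hδdef, ← map_neg, ← algebraMap_smul Ω (-(c * d1 - c1 * d)) (R' * k)]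
    rw [e]
    exact D.smul_mem (D.mul_mem hR'D hkD) _
  have hXinv : X * (k' * Matrix.diagonal r) = (-δ) • (1 : M5 Ω) := by
    rw [hXeq, smul_mul_assoc]
    congr 1
    calc R' * k * (k' * Matrix.diagonal r) = R' * (k * k') * Matrix.diagonal r := by
          simp only [mul_assoc]
      _ = 1 := by rw [hkk', mul_one, hR'R]
  have htr : Matrix.trace (k' * Matrix.diagonal r) = 0 := by
    have e : k' * Matrix.diagonal r = c • (k' * Matrix.diagonal u) + c1 • (k' * Matrix.diagonal v) := by
      have e1 : Matrix.diagonal r = c • Matrix.diagonal u + c1 • Matrix.diagonal v := by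
        rw [hr, ← Matrix.diagonal_smul, ← Matrix.diagonal_smul, Matrix.diagonal_add]
        rfl
      rw [e1, mul_add, mul_smul_comm, mul_smul_comm]
    rw [e, Matrix.trace_add, Matrix.trace_smul, Matrix.trace_smul, hα, hβ, Algebra.smul_def,
      Algebra.smul_def, ← map_mul, ← map_mul, ← map_add, hcc, map_zero]
  have hδ' : -δ ≠ 0 := neg_ne_zero.mpr hδ0
  have hadj : Matrix.trace (Matrix.adjugate X) = 0 := by
    have e : (-δ) • Matrix.adjugate X = X.det • (k' * Matrix.diagonal r) := by
      calc (-δ) • Matrix.adjugate X = Matrix.adjugate X * ((-δ) • (1 : M5 Ω)) := by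
            rw [mul_smul_comm, mul_one]
        _ = Matrix.adjugate X * X * (k' * Matrix.diagonal r) := by rw [← hXinv, mul_assoc]
        _ = X.det • (k' * Matrix.diagonal r) := by
            rw [Matrix.adjugate_mul, smul_mul_assoc, one_mul]
    have h1 := congrArg Matrix.trace e
    rw [Matrix.trace_smul, Matrix.trace_smul, htr, smul_zero, smul_eq_mul] at h1
    exact (mul_eq_zero.mp h1).resolve_left hδ'
  have hdet : X.det ≠ 0 := by
    intro h0
    have h1 := congrArg Matrix.det hXinv
    rw [Matrix.det_mul, h0, zero_mul, Matrix.det_smul, Matrix.det_one, mul_one] at h1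
    exact (pow_ne_zero _ hδ') h1.symm
  have hzd : ∀ i, X i i = 0 := by
    intro i
    simp [hX, XX]
  have hsr : ∑ i, r i = 0 := by
    simp only [hri, Finset.sum_add_distrib, ← Finset.mul_sum, hu0, hv0, mul_zero, add_zero]
  have hss : ∑ i, s i = 0 := by
    simp only [hsi, Finset.sum_add_distrib, ← Finset.mul_sum, hu0, hv0, mul_zero, add_zero]
  have hE2 : E2 X = 0 := D1 h hinv r s hrne hsr hss
  have homrs : ∀ w : Fin 5 → Ω, om h r s w = 0 := by
    intro w
    have er : r = algebraMap F Ω c • u + algebraMap F Ω c1 • v := by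
      funext i; rw [hri i]; rfl
    have es : s = algebraMap F Ω d • u + algebraMap F Ω d1 • v := by
      funext i; rw [hsi i]; rfl
    rw [er, om_lin1, es, om_lin2, om_lin2, om_self, om_self, om_swap h u v w, hom w]
    ring
  have hE3 : E3 X = 0 := D2 h r s hrne (homrs _)
  refine ⟨X, hXD, ?_, X.det, hdet, C2 X hzd hE2 hE3 hadj⟩
  intro c' hc'
  have h1 := hzd 0
  rw [hc', Matrix.smul_apply, Matrix.one_apply_eq, smul_eq_mul, mul_one] at h1
  apply hdet
  rw [hc', h1, zero_smul, Matrix.det_zero]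

end Pool.Agent.Helper76.C5
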