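import Pool.Agent.Helper76.C5.Defs
import Pool.Agent.Helper58.CY.E1

/-! C5G N1 (MP_5d2531_al, degree 5 in all characteristics; paper /team-store/C5_full_helper76_v2.md). A form which is not a division algebra contains a nonscalar z with z^5 = 1. Proof: D is a simple ring (a two-sided ideal I ≠ 0 of D: its Ω-span is an ideal of M_5(Ω), so everything, so I contains 25 independent elements, I = D), finite dimensional over F, so D is isomorphic to M_r(Δ), Δ a division ring (Wedderburn-Artin, IsSimpleRing.exists_algEquiv_matrix_divisionRing...); r^2 dim_F Δ = 25; r = 1 contradicts not IsDiv; so r = 5 and Δ = F (dim 1). z = image of the cyclic permutation matrix; if z = c • 1 then z commutes with everything in D, so the permutation matrix would be central. (Alternative: elementary, from the u ≠ 0, u^2 = 0 of E1.) -/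

namespace Pool.Agent.Helper76.C5

open Matrix Finset Pool.Agent.Helper58.CY

variable {F : Type*} {Ω : Type*} [Field F] [Field Ω] [Algebra F Ω]

/-- a form is finite dimensional of dimension 25 -/
theorem N1_fin (D : Subalgebra F (M5 Ω)) (hD : IsForm D) :
    Module.Finite F D ∧ Module.finrank F D = 25 := by
  obtain ⟨b, hbD, hb, hspan⟩ := hD
  have hDs : Subalgebra.toSubmodule D = Submodule.span F (Set.range b) := by
    apply le_antisymm
    · intro z hz
      obtain ⟨c, hc⟩ := hspan z hz
      rw [hc]
      exact Submodule.sum_mem _ fun i _ => Submodule.smul_mem _ _ (Submodule.subset_span ⟨i, rfl⟩)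
    · rw [Submodule.span_le]
      rintro _ ⟨i, rfl⟩
      exact hbD i
  have hfin : Module.Finite F (Subalgebra.toSubmodule D) := by
    rw [hDs]
    exact Module.Finite.span_of_finite F (Set.finite_range b)
  refine ⟨hfin, ?_⟩
  have hbF : LinearIndependent F b := hb.restrict_scalars' F
  have h1 : Module.finrank F (Subalgebra.toSubmodule D) = 25 := by
    rw [hDs, finrank_span_eq_card hbF]
    simp
  exact h1

/-- a nonzero two-sided ideal of a form contains 1 -/
theorem N1_one_mem (D : Subalgebra F (M5 Ω)) (hD : IsForm D) (I : Submodule F (M5 Ω))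
    (hI : ∀ y ∈ I, ∀ c ∈ D, ∀ d ∈ D, c * y * d ∈ I) (hID : I ≤ Subalgebra.toSubmodule D)
    (x : M5 Ω) (hx : x ∈ I) (hx0 : x ≠ 0) : (1 : M5 Ω) ∈ I := by
  have hfin := N1_fin D hD
  obtain ⟨b, hbD, hb, -⟩ := hD
  have htop : Submodule.span Ω (Set.range b) = ⊤ := by
    apply hb.span_eq_top_of_card_eq_finrank'
    simp [Module.finrank_matrix]
  set v : Fin 25 × Fin 25 → M5 Ω := fun p => b p.1 * x * b p.2 with hv
  have hvI : ∀ p, v p ∈ I := fun p => hI x hx _ (hbD _) _ (hbD _)
  have hvtop : Submodule.span Ω (Set.range v) = ⊤ := by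
    -- the span contains `m * x * m'` for all `m, m'`
    have h1 : ∀ m m' : M5 Ω, m * x * m' ∈ Submodule.span Ω (Set.range v) := by
      intro m m'
      have hm : m ∈ Submodule.span Ω (Set.range b) := by rw [htop]; trivial
      have hm' : m' ∈ Submodule.span Ω (Set.range b) := by rw [htop]; trivial
      induction hm using Submodule.span_induction with
      | mem z hz =>
        obtain ⟨i, rfl⟩ := hz
        induction hm' using Submodule.span_induction with
        | mem z hz =>
          obtain ⟨j, rfl⟩ := hz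
          exact Submodule.subset_span ⟨(i, j), rfl⟩
        | zero => rw [mul_zero]; exact Submodule.zero_mem _
        | add u w _ _ hu hw => rw [mul_add]; exact Submodule.add_mem _ hu hw
        | smul c u _ hu => rw [mul_smul_comm]; exact Submodule.smul_mem _ _ hu
      | zero => rw [zero_mul, zero_mul]; exact Submodule.zero_mem _
      | add u w _ _ hu hw => rw [add_mul, add_mul]; exact Submodule.add_mem _ hu hw
      | smul c u _ hu => rw [smul_mul_assoc, smul_mul_assoc]; exact Submodule.smul_mem _ _ hu
    obtain ⟨k, l, hkl⟩ : ∃ k l, x k l ≠ 0 := by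
      by_contra h1
      push Not at h1
      exact hx0 (by ext k l; exact h1 k l)
    rw [eq_top_iff]
    intro m _
    rw [Matrix.matrix_eq_sum_single m]
    refine Submodule.sum_mem _ fun i _ => Submodule.sum_mem _ fun j _ => ?_
    have h2 : Matrix.single i j (m i j) =
        (Matrix.single i k (m i j * (x k l)⁻¹)) * x * (Matrix.single l j (1 : Ω)) := by
      rw [Matrix.single_mul_mul_single]
      congr 1
      field_simp
    rw [h2]
    exact h1 _ _
  obtain ⟨κ, a, -, hsp, hli⟩ := exists_linearIndependent' Ω v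
  rw [hvtop] at hsp
  have hfinκ : Finite κ := hli.finite
  cases nonempty_fintype κ
  have hcard : Fintype.card κ = 25 := by
    have h1 := finrank_span_eq_card hli
    rw [hsp, finrank_top] at h1
    rw [← h1]
    simp [Module.finrank_matrix]
  have hliF : LinearIndependent F (v ∘ a) := hli.restrict_scalars' F
  have hle : Submodule.span F (Set.range (v ∘ a)) ≤ I := by
    rw [Submodule.span_le]
    rintro _ ⟨i, rfl⟩
    exact hvI _
  have hle2 : Submodule.span F (Set.range (v ∘ a)) ≤ Subalgebra.toSubmodule D := hle.trans hID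
  have hfd : Module.Finite F (Subalgebra.toSubmodule D) := hfin.1
  have heq : Submodule.span F (Set.range (v ∘ a)) = Subalgebra.toSubmodule D := by
    apply Submodule.eq_of_le_of_finrank_eq hle2
    rw [finrank_span_eq_card hliF, hcard]
    exact hfin.2.symm
  have h1 : (1 : M5 Ω) ∈ Subalgebra.toSubmodule D := D.one_mem
  rw [← heq] at h1
  exact hle h1

/-- a form is a simple ring -/
theorem N1_simple (D : Subalgebra F (M5 Ω)) (hD : IsForm D) : IsSimpleRing D := by
  rw [isSimpleRing_iff_isTwoSided_imp]
  refine ⟨⟨⟨0, 1, fun h => ?_⟩⟩, ?_⟩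
  · have h1 := congrArg (Subtype.val) h
    have h2 : (0 : M5 Ω) = 1 := h1
    exact zero_ne_one h2
  · intro I hI
    by_cases h0 : I = ⊥
    · exact Or.inl h0
    · right
      obtain ⟨x, hx, hx0⟩ := Submodule.exists_mem_ne_zero_of_ne_bot h0
      set J : Submodule F (M5 Ω) :=
        { carrier := {y | ∃ h : y ∈ D, (⟨y, h⟩ : D) ∈ I}
          add_mem' := by
            rintro y z ⟨hy, hyI⟩ ⟨hz, hzI⟩
            exact ⟨D.add_mem hy hz, I.add_mem hyI hzI⟩
          zero_mem' := ⟨D.zero_mem, I.zero_mem⟩
          smul_mem' := by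
            rintro c y ⟨hy, hyI⟩
            refine ⟨D.smul_mem hy c, ?_⟩
            have h1 := I.mul_mem_left (algebraMap F D c) hyI
            have h2 : algebraMap F D c * (⟨y, hy⟩ : D) = ⟨c • y, D.smul_mem hy c⟩ := by
              apply Subtype.ext
              change algebraMap F (M5 Ω) c * y = c • y
              rw [Algebra.smul_def]
            rwa [h2] at h1 } with hJ
      have h1 : (1 : M5 Ω) ∈ J := by
        apply N1_one_mem D hD J ?_ ?_ (x : M5 Ω) ⟨x.2, hx⟩ (fun h => hx0 (Subtype.ext h))
        · rintro y ⟨hy, hyI⟩ c hc d hd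
          refine ⟨D.mul_mem (D.mul_mem hc hy) hd, ?_⟩
          exact I.mul_mem_right (⟨d, hd⟩ : D) (I.mul_mem_left (⟨c, hc⟩ : D) hyI)
        · rintro y ⟨hy, -⟩
          exact hy
      obtain ⟨h2, h3⟩ := h1
      rw [Ideal.eq_top_iff_one]
      exact h3

/-- the cyclic permutation matrix -/
theorem N1_P : ∃ P : Matrix (Fin 5) (Fin 5) ℤ, P ^ 5 = 1 ∧ P 1 0 = 1 := by
  refine ⟨Matrix.of fun i j => if i = j + 1 then 1 else 0, ?_, ?_⟩
  · decide
  · decide

theorem N1 (D : Subalgebra F (M5 Ω)) (hD : IsForm D) (hnd : ¬ IsDiv D) :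
    ∃ z ∈ D, (∀ c : Ω, z ≠ c • (1 : M5 Ω)) ∧ z ^ 5 = 1 := by
  obtain ⟨hfin, hrank⟩ := N1_fin D hD
  have := hfin
  have := N1_simple D hD
  have : IsArtinianRing D := IsArtinianRing.of_finite F D
  obtain ⟨r, hr, Δ, _, _, hΔ, ⟨e⟩⟩ := IsSimpleRing.exists_algEquiv_matrix_divisionRing_finite F D
  have hdim : r * r * Module.finrank F Δ = 25 := by
    have h1 := e.toLinearEquiv.finrank_eq
    rw [hrank, Module.finrank_matrix, Fintype.card_fin] at h1
    exact h1.symm
  have hr5 : r ≤ 5 := by
    by_contra h
    push Not at h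
    have h2 : 0 < Module.finrank F Δ := Module.finrank_pos
    nlinarith
  have hr0 : 0 < r := Nat.pos_of_ne_zero hr.out
  have hrr : r = 1 ∨ r = 5 := by
    interval_cases r <;> omega
  rcases hrr with rfl | rfl
  · exfalso
    apply hnd
    intro d hd hd0
    have h1 : e ⟨d, hd⟩ ≠ 0 := by
      intro h
      apply hd0
      have h2 : (⟨d, hd⟩ : D) = 0 := by
        apply e.injective
        rw [h, map_zero]
      exact congrArg Subtype.val h2
    set M := e ⟨d, hd⟩ with hM
    have h2 : M 0 0 ≠ 0 := by
      intro h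
      apply h1
      ext i j
      rw [Subsingleton.elim i 0, Subsingleton.elim j 0, h]
      rfl
    set N : Matrix (Fin 1) (Fin 1) Δ := Matrix.of fun _ _ => (M 0 0)⁻¹ with hN
    have h3 : M * N = 1 := by
      ext i j
      rw [Subsingleton.elim i 0, Subsingleton.elim j 0, Matrix.mul_apply]
      simp [hN, h2]
    refine ⟨(e.symm N : D), (e.symm N).2, ?_⟩
    have h4 : (⟨d, hd⟩ : D) * e.symm N = 1 := by
      apply e.injective
      rw [map_mul, e.apply_symm_apply, map_one]
      exact h3
    exact congrArg Subtype.val h4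
  · obtain ⟨PZ, hPZ5, hPZ10⟩ := N1_P
    set P : Matrix (Fin 5) (Fin 5) Δ := (Int.castRingHom Δ).mapMatrix PZ with hP
    have hP10 : P 1 0 = 1 := by
      rw [hP, RingHom.mapMatrix_apply, Matrix.map_apply, hPZ10]
      simp
    have hP5 : P ^ 5 = 1 := by
      rw [hP, ← map_pow, hPZ5, map_one]
    refine ⟨(e.symm P : D), (e.symm P).2, ?_, ?_⟩
    · intro c hc
      have hcomm : ∀ y : D, e.symm P * y = y * e.symm P := by
        intro y
        apply Subtype.ext
        change ((e.symm P : D) : M5 Ω) * (y : M5 Ω) = (y : M5 Ω) * ((e.symm P : D) : M5 Ω)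
        rw [hc]
        simp
      have h1 := hcomm (e.symm (Matrix.single 0 0 1))
      have h2 := congrArg e h1
      rw [map_mul, map_mul, e.apply_symm_apply, e.apply_symm_apply] at h2
      have h3 := congrFun (congrFun h2 1) 0
      rw [Matrix.mul_apply, Matrix.mul_apply] at h3
      simp [hP10, Matrix.single_apply] at h3
    · have h1 : (e.symm P) ^ 5 = 1 := by
        apply e.injective
        rw [map_pow, e.apply_symm_apply, hP5, map_one]
      exact congrArg Subtype.val h1

end Pool.Agent.Helper76.C5
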