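import Pool.Agent.Helper76.C5.St.M1
import Pool.Agent.Helper76.C5.St.N1
import Pool.Agent.Helper58.CY.A3b
import Pool.Agent.Helper58.CY.A3c
import Pool.Agent.Helper58.CY.A4

/-! C5G M2 (MP_5d2531_al, degree 5 in all characteristics; paper /team-store/C5_full_helper76_v2.md). Theorem for all forms: conjugate as in Helper58/CY/C4.lean (A3c, A3b, A4) and M1; N1 in the non-division case. -/

namespace Pool.Agent.Helper76.C5

open Matrix Finset Pool.Agent.Helper58.CY

variable {F : Type*} {Ω : Type*} [Field F] [Field Ω] [Algebra F Ω]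

theorem M2 [Infinite F] [IsAlgClosed Ω] (D : Subalgebra F (M5 Ω)) (hD : IsForm D) :
    ∃ z ∈ D, (∀ c : Ω, z ≠ c • (1 : M5 Ω)) ∧ ∃ c : Ω, c ≠ 0 ∧ z ^ 5 = c • (1 : M5 Ω) := by
  by_cases hdiv : IsDiv D
  · obtain ⟨θ, hθ, hdisc⟩ := A3c D hD
    obtain ⟨S, S', a, hSS, hdiag, ha⟩ := A3b θ hdisc
    have hS'S : S' * S = 1 := mul_eq_one_comm.mp hSS
    have hda : Matrix.diagonal a ∈ conjD D S S' hSS := by
      rw [mem_conjD, ← hdiag]
      have : S * (S' * θ * S) * S' = θ := by
        calc S * (S' * θ * S) * S' = (S * S') * θ * (S * S') := by simp only [mul_assoc]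
          _ = θ := by rw [hSS, one_mul, mul_one]
      rw [this]
      exact hθ
    obtain ⟨z, hz, hns, c, hc0, hc⟩ :=
      M1 (conjD D S S' hSS) (A4a D S S' hSS hD) (A4b D S S' hSS hdiv) a ha hda
    rw [mem_conjD] at hz
    have hmul : ∀ u v : M5 Ω, (S * u * S') * (S * v * S') = S * (u * v) * S' := by
      intro u v
      calc (S * u * S') * (S * v * S') = S * u * (S' * S) * v * S' := by simp only [mul_assoc]
        _ = S * (u * v) * S' := by rw [hS'S]; simp only [mul_one, mul_assoc]
    have hpow : ∀ k : ℕ, (S * z * S') ^ (k+1) = S * z ^ (k+1) * S' := by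
      intro k
      induction k with
      | zero => simp
      | succ k ih => rw [pow_succ, ih, hmul, ← pow_succ]
    refine ⟨S * z * S', hz, ?_, c, hc0, ?_⟩
    · intro c' hc'
      apply hns c'
      have : S' * (S * z * S') * S = z := by
        calc S' * (S * z * S') * S = (S' * S) * z * (S' * S) := by simp only [mul_assoc]
          _ = z := by rw [hS'S, one_mul, mul_one]
      rw [← this, hc', mul_smul_comm, mul_one, smul_mul_assoc, hS'S]
    · rw [hpow 4, hc, mul_smul_comm, mul_one, smul_mul_assoc, hSS]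
  · obtain ⟨z, hz, hns, h5⟩ := N1 D hD hdiv
    exact ⟨z, hz, hns, 1, one_ne_zero, by rw [h5, one_smul]⟩

end Pool.Agent.Helper76.C5
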