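import Pool.Agent.Helper76.C5.Defs

/-! C5G P1 (MP_5d2531_al, degree 5 in all characteristics; paper /team-store/C5_full_helper76_v2.md). om is trilinear and alternating in (u,v,w): om h u u w = 0 etc. (swap the summation indices; the coefficient c_ijk - c_ikj is alternating). Prove: om_add/om_smul in each variable, om_swap12 : om h v u w = -om h u v w, om_swap23, om_self12, om_self23, om_self13. -/

namespace Pool.Agent.Helper76.C5

open Matrix Finset Pool.Agent.Helper58.CY

section
variable {Ω : Type*} [CommRing Ω]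

theorem om_lin1 (h : M5 Ω) (c c1 : Ω) (u u1 v w : Fin 5 → Ω) :
    om h (c • u + c1 • u1) v w = c * om h u v w + c1 * om h u1 v w := by
  simp only [om, Finset.mul_sum, ← Finset.sum_add_distrib]
  refine Finset.sum_congr rfl fun i _ => Finset.sum_congr rfl fun j _ =>
    Finset.sum_congr rfl fun k _ => ?_
  simp only [Pi.add_apply, Pi.smul_apply, smul_eq_mul]
  ring

theorem om_lin2 (h : M5 Ω) (c c1 : Ω) (u v v1 w : Fin 5 → Ω) :
    om h u (c • v + c1 • v1) w = c * om h u v w + c1 * om h u v1 w := by
  simp only [om, Finset.mul_sum, ← Finset.sum_add_distrib]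
  refine Finset.sum_congr rfl fun i _ => Finset.sum_congr rfl fun j _ =>
    Finset.sum_congr rfl fun k _ => ?_
  simp only [Pi.add_apply, Pi.smul_apply, smul_eq_mul]
  ring

theorem om_lin3 (h : M5 Ω) (c c1 : Ω) (u v w w1 : Fin 5 → Ω) :
    om h u v (c • w + c1 • w1) = c * om h u v w + c1 * om h u v w1 := by
  simp only [om, Finset.mul_sum, ← Finset.sum_add_distrib]
  refine Finset.sum_congr rfl fun i _ => Finset.sum_congr rfl fun j _ =>
    Finset.sum_congr rfl fun k _ => ?_
  simp only [Pi.add_apply, Pi.smul_apply, smul_eq_mul]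
  ring

theorem om_cyc (h : M5 Ω) (u v w : Fin 5 → Ω) : om h v w u = om h u v w := by
  have e : om h u v w = ∑ j, ∑ k, ∑ i,
      (h i j * h j k * h k i - h i k * h k j * h j i) * (u i * v j * w k) := by
    rw [om, Finset.sum_comm]
    refine Finset.sum_congr rfl fun j _ => ?_
    rw [Finset.sum_comm]
  rw [e, om]
  refine Finset.sum_congr rfl fun i _ => Finset.sum_congr rfl fun j _ =>
    Finset.sum_congr rfl fun k _ => ?_
  ring

theorem om_swap (h : M5 Ω) (u v w : Fin 5 → Ω) : om h v u w = -om h u v w := by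
  have e : om h u v w = ∑ j, ∑ i, ∑ k,
      (h i j * h j k * h k i - h i k * h k j * h j i) * (u i * v j * w k) := by
    rw [om, Finset.sum_comm]
  rw [e, om, ← Finset.sum_neg_distrib]
  refine Finset.sum_congr rfl fun i _ => ?_
  rw [← Finset.sum_neg_distrib]
  refine Finset.sum_congr rfl fun j _ => ?_
  rw [← Finset.sum_neg_distrib]
  refine Finset.sum_congr rfl fun k _ => ?_
  ring

theorem om_self (h : M5 Ω) (u w : Fin 5 → Ω) : om h u u w = 0 := by
  simp only [om, Fin.sum_univ_five]
  ring

end

end Pool.Agent.Helper76.C5
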