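import Pool.Agent.Helper76.C5.St.P1
import Pool.Agent.Helper58.CY.A7

/-! C5G P2 (MP_5d2531_al, degree 5 in all characteristics; paper /team-store/C5_full_helper76_v2.md). om h u v w = tr(U h V h W h) - tr(U h W h V h) with U = diagonal u etc., so in F by A7. -/

namespace Pool.Agent.Helper76.C5

open Matrix Finset Pool.Agent.Helper58.CY

variable {F : Type*} {Ω : Type*} [Field F] [Field Ω] [Algebra F Ω]

private lemma tr3 (h : M5 Ω) (u v w : Fin 5 → Ω) :
    Matrix.trace (Matrix.diagonal u * h * (Matrix.diagonal v * h) * (Matrix.diagonal w * h)) =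
      ∑ i, ∑ j, ∑ k, (h i j * h j k * h k i) * (u i * v j * w k) := by
  unfold Matrix.trace
  apply Finset.sum_congr rfl
  intro i _
  rw [Matrix.diag_apply, Matrix.mul_apply]
  have e : ∀ k, (Matrix.diagonal u * h * (Matrix.diagonal v * h)) i k * (Matrix.diagonal w * h) k i =
      ∑ j, (h i j * h j k * h k i) * (u i * v j * w k) := by
    intro k
    rw [Matrix.mul_apply, Finset.sum_mul]
    apply Finset.sum_congr rfl
    intro j _
    rw [Matrix.diagonal_mul, Matrix.diagonal_mul, Matrix.diagonal_mul]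
    ring
  rw [Finset.sum_congr rfl (fun k _ => e k), Finset.sum_comm]

theorem P2 (D : Subalgebra F (M5 Ω)) (hD : IsForm D) (a : Fin 5 → Ω) (ha : Function.Injective a)
    (hθ : Matrix.diagonal a ∈ D) (h : M5 Ω) (hh : h ∈ D) (u v w : Fin 5 → Ω)
    (hu : Matrix.diagonal u ∈ D) (hv : Matrix.diagonal v ∈ D) (hw : Matrix.diagonal w ∈ D) :
    ∃ c : F, om h u v w = algebraMap F Ω c := by
  have hU := D.mul_mem hu hh
  have hV := D.mul_mem hv hh
  have hW := D.mul_mem hw hh
  obtain ⟨c1, h1⟩ := A7 D hD a ha hθ _ (D.mul_mem (D.mul_mem hU hV) hW)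
  obtain ⟨c2, h2⟩ := A7 D hD a ha hθ _ (D.mul_mem (D.mul_mem hU hW) hV)
  rw [tr3] at h1 h2
  refine ⟨c1 - c2, ?_⟩
  rw [map_sub, ← h1, ← h2]
  unfold om
  rw [← Finset.sum_sub_distrib]
  apply Finset.sum_congr rfl
  intro i _
  have e2 : ∑ j, ∑ k, (h i j * h j k * h k i) * (u i * w j * v k) =
      ∑ j, ∑ k, (h i k * h k j * h j i) * (u i * w k * v j) := Finset.sum_comm
  rw [e2, ← Finset.sum_sub_distrib]
  apply Finset.sum_congr rfl
  intro j _
  rw [← Finset.sum_sub_distrib]
  apply Finset.sum_congr rfl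
  intro k _
  ring

end Pool.Agent.Helper76.C5
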